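import Pool.Agent.Helper8.ZT.Defs
import Pool.Agent.Helper59.SP.SignPart
import Pool.Agent.Helper74.SP.H123

set_option autoImplicit false

/-!
# ZT-5: instances with larger last digits
-/

namespace Pool.Agent.Helper5.ZT

open Finset
open Pool.Agent.Helper22.ETModel Pool.Agent.Helper22.TSModel
open Pool.Agent.Helper23.SP Pool.Agent.Helper8.ZT
open Pool.Agent.Helper59.SP Pool.Agent.Helper74.SP

section sign

variable {El : Type} [Fintype El] {k b U : ℕ} [NeZero b]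

lemma sign_total_B {L Y M N B : ℕ} {mu : Fin U → ℕ} (hM : ∀ u, mu u ≤ M)
    (hY : N * M < Y) {κ : ℤ} {γ : El → ℤ} (hN : ∑ e, |γ e| ≤ N)
    (hL : |κ| + N * B < L) {ω : Om El k b U} {i0 : Fin k} (h0 : ∀ i, i < i0 → Zs mu γ ω i = 0)
    (hi : Zs mu γ ω i0 ≠ 0) {tiny : El → ℤ} (ht : ∀ e, |tiny e| ≤ B) :
    SignType.sign (κ + ∑ e, γ e * value L Y mu ω tiny e) = SignType.sign (Zs mu γ ω i0) := by
  have h1 := sign_horner Y k (Zs mu γ ω)
    (fun i => lt_of_le_of_lt (Zs_abs_le hM hN ω i) (by exact_mod_cast hY)) i0 h0 hi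
  rw [total_eq, ← h1]
  refine sign_mul_add ?_ ?_
  · intro h5
    rw [h5, sign_zero] at h1
    exact hi (sign_eq_zero_iff.1 h1.symm)
  · refine lt_of_le_of_lt ?_ hL
    refine (abs_add_le _ _).trans (add_le_add le_rfl ?_)
    calc |∑ e, γ e * tiny e| ≤ ∑ e, |γ e * tiny e| := abs_sum_le_sum_abs _ _
      _ ≤ ∑ e, |γ e| * (B : ℤ) := sum_le_sum fun e _ => by
          rw [abs_mul]
          exact mul_le_mul_of_nonneg_left (ht e) (abs_nonneg _)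
      _ = (∑ e, |γ e|) * (B : ℤ) := by rw [sum_mul]
      _ ≤ N * B := mul_le_mul_of_nonneg_right hN (by positivity)

/-- ZT-5a -/
theorem sign_part_B {L Y M N s B : ℕ}
    {mu : Fin U → ℕ} (hmu : Free mu s N) (hM : ∀ u, mu u ≤ M) (hY : N * M < Y) {κ : ℤ}
    {γ : El → ℤ} (hs : (supp γ).card ≤ s) (hN : ∑ e, |γ e| ≤ N) (hL : |κ| + N * B < L)
    {ω ω' : Om El k b U} {r : ℕ} (hP : ¬ Pass γ ω r)
    (hg : ∀ i : Fin k, i.val < r → ∀ e ∈ supp γ, g i ω e = g i ω' e) {tiny tiny' : El → ℤ}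
    (ht : ∀ e, |tiny e| ≤ B) (ht' : ∀ e, |tiny' e| ≤ B) :
    SignType.sign (κ + ∑ e, γ e * value L Y mu ω tiny e) =
      SignType.sign (κ + ∑ e, γ e * value L Y mu ω' tiny' e) := by
  classical
  unfold Pass at hP
  push Not at hP
  obtain ⟨i, hir, u, hu⟩ := hP
  have hne : Zs mu γ ω i ≠ 0 := Zs_ne_zero hmu hs hN hu
  have hex : ∃ j : ℕ, ∃ hj : j < k, Zs mu γ ω ⟨j, hj⟩ ≠ 0 := ⟨i.val, i.isLt, hne⟩
  obtain ⟨hj, hZ⟩ := Nat.find_spec hex
  have hmin : Nat.find hex ≤ i.val := Nat.find_min' hex ⟨i.isLt, hne⟩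
  have h0 : ∀ j : Fin k, j < ⟨Nat.find hex, hj⟩ → Zs mu γ ω j = 0 := by
    intro j hj'
    by_contra hcon
    exact Nat.find_min hex (m := j.val) hj' ⟨j.isLt, hcon⟩
  have hc : ∀ j : Fin k, j.val < r → Zs mu γ ω j = Zs mu γ ω' j := fun j hjr =>
    Zs_congr mu (hg j hjr)
  have hr0 : Nat.find hex < r := lt_of_le_of_lt hmin hir
  rw [sign_total_B hM hY hN hL h0 hZ ht,
    sign_total_B (ω := ω') (i0 := ⟨Nat.find hex, hj⟩) hM hY hN hL ?_ ?_ ht', hc _ hr0]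
  · intro j hj'
    rw [← hc j (lt_trans hj' hr0)]
    exact h0 j hj'
  · rw [← hc _ hr0]
    exact hZ

end sign

section instances

variable {m n k b U L Y : ℕ} [NeZero b]

lemma value_bound_B {mu : Fin U → ℕ} (hM : ∀ u, mu u < Y) {B : ℕ} (hB : B ≤ L)
    (ω : Om (E m) k b U) {tiny : E m → ℤ} (ht : ∀ e, 0 ≤ tiny e ∧ tiny e ≤ B) (e : E m) :
    0 ≤ value L Y mu ω tiny e ∧ value L Y mu ω tiny e ≤ ((L * Y ^ k : ℕ) : ℤ) := by
  have h1 := digits_lt Y k (fun r => mu (g r ω e)) (fun r => hM _)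
  have h2 : value L Y mu ω tiny e =
      ((L * ∑ r : Fin k, Y ^ (k - 1 - r.val) * mu (g r ω e) : ℕ) : ℤ) + tiny e := by
    unfold value
    push_cast
    rfl
  rw [h2]
  have h3 : L * (∑ r : Fin k, Y ^ (k - 1 - r.val) * mu (g r ω e)) + L ≤ L * Y ^ k := by
    have := Nat.mul_le_mul_left L (Nat.succ_le_of_lt h1)
    rw [Nat.mul_succ] at this
    exact this
  obtain ⟨ha, hb⟩ := ht e
  have h4 : (B : ℤ) ≤ L := by exact_mod_cast hB
  have h5 : ((L * (∑ r : Fin k, Y ^ (k - 1 - r.val) * mu (g r ω e)) : ℕ) : ℤ) + L ≤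
      ((L * Y ^ k : ℕ) : ℤ) := by exact_mod_cast h3
  constructor
  · have : (0 : ℤ) ≤ ((L * (∑ r : Fin k, Y ^ (k - 1 - r.val) * mu (g r ω e)) : ℕ) : ℤ) :=
      Int.natCast_nonneg _
    linarith
  · linarith

/-- ZT-5b -/
theorem inst_valid_B (h : 3 * m ≤ n) {mu : Fin U → ℕ}
    (hM : ∀ u, mu u < Y) {B : ℕ} (hB : B ≤ L)
    (hr : L * Y ^ k ≤ n ^ 300) (ω : Om (E m) k b U) {tiny : E m → ℤ}
    (ht : ∀ e, 0 ≤ tiny e ∧ tiny e ≤ B) : (instOf h (wgt L Y mu ω tiny)).Valid := by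
  apply instOf_valid
  intro e
  obtain ⟨h1, h2⟩ := value_bound_B hM hB ω ht e
  have h3 : ((L * Y ^ k : ℕ) : ℤ) ≤ (n : ℤ) ^ 300 := by exact_mod_cast hr
  unfold wgt
  rw [abs_mul, abs_of_nonneg h1]
  have h4 : |sg e| ≤ 1 := by
    unfold sg
    split_ifs <;> simp
  calc |sg e| * value L Y mu ω tiny e ≤ 1 * value L Y mu ω tiny e :=
        mul_le_mul_of_nonneg_right h4 h1
    _ ≤ (n : ℤ) ^ 300 := by rw [one_mul]; exact h2.trans h3

/-- ZT-5c -/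
theorem base_no_N {N : ℕ} (h : 3 * m ≤ n) (hL : 2 * N + 2 ≤ L)
    (mu : Fin U → ℕ) (ω : Om (E m) k b U) (ν : E m → Fin (N + 1)) :
    ¬ (instOf h (wgt L Y mu ω (tinyN ν))).Yes := by
  rw [instOf_yes]
  rintro ⟨T, hT⟩
  rw [Fin.sum_univ_three] at hT
  simp only [wgt, sg, tk, tinyN, value, one_ne_zero, if_true, if_false, Fin.reduceEq, one_mul,
    neg_mul, zero_mul, add_zero] at hT
  have n0 := (ν (0, T 0, T (0 + 1))).isLt
  have n1 := (ν (1, T 1, T (1 + 1))).isLt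
  set p : ℕ := ((ν (0, T 0, T (0 + 1))) : ℕ) with hp
  set q : ℕ := ((ν (1, T 1, T (1 + 1))) : ℕ) with hq
  have h1 : (L : ℤ) ∣ 2 * (p : ℤ) + 1 - 2 * (q : ℤ) := by
    refine ⟨(∑ r : Fin k, (Y : ℤ) ^ (k - 1 - r.val) * (mu (g r ω (1, T 1, T (1 + 1))) : ℤ)) -
      (∑ r : Fin k, (Y : ℤ) ^ (k - 1 - r.val) * (mu (g r ω (0, T 0, T (0 + 1))) : ℤ)), ?_⟩
    linarith
  have h2 : (2 * (p : ℤ) + 1 - 2 * (q : ℤ)) = 0 := by
    apply Int.eq_zero_of_abs_lt_dvd h1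
    rw [abs_lt]
    constructor <;> omega
  omega

/-- ZT-5d -/
theorem plant_yes_N {N : ℕ} (h : 3 * m ≤ n) (mu : Fin U → ℕ)
    (ω : Om (E m) k b U) (ν : E m → Fin (N + 1)) (i j l : Fin m)
    (hd : ω.1 (1, j, l) = ω.1 (0, i, j)) :
    (instOf h (wgt L Y mu ω (tinyQ ν (0, i, j) (1, j, l)))).Yes := by
  rw [instOf_yes]
  refine ⟨![i, j, l], ?_⟩
  rw [Fin.sum_univ_three]
  have e0 : tk ![i, j, l] 0 = ((0, i, j) : E m) := rfl
  have e1 : tk ![i, j, l] 1 = ((1, j, l) : E m) := rfl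
  have e2 : tk ![i, j, l] 2 = ((2, l, i) : E m) := rfl
  rw [e0, e1, e2]
  have hg : ∀ r : Fin k, g r ω ((1, j, l) : E m) = g r ω (0, i, j) := by
    intro r
    unfold g
    rw [hd]
  have hne : ((1, j, l) : E m) ≠ (0, i, j) := by
    intro h1
    have := congrArg Prod.fst h1
    simp at this
  have t0 : tinyQ ν ((0, i, j) : E m) (1, j, l) (0, i, j) = 2 * ((ν (1, j, l) : ℕ) : ℤ) := by
    simp [tinyQ]
  have t1 : tinyQ ν ((0, i, j) : E m) (1, j, l) (1, j, l) = 2 * ((ν (1, j, l) : ℕ) : ℤ) := by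
    unfold tinyQ
    rw [if_neg hne]
    simp [tinyN]
  simp only [wgt, sg, value, t0, t1, hg, one_ne_zero, if_true, if_false, Fin.reduceEq, one_mul,
    neg_mul, zero_mul, add_zero]
  ring

end instances

end Pool.Agent.Helper5.ZT
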